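import Mathlib
import Pool.Agent.H96.CP.Two
import Pool.Agent.H75.MX.Asym
import Pool.Agent.H73.KH.LowP
import Pool.Agent.H73.KH.LowOne
import Pool.Agent.H73.KH.Up2m
import Pool.Agent.H73.KH.UpOneP
import Pool.Agent.H75.UX.Main
import Pool.Agent.H67.CP.Asm

set_option autoImplicit false

/-! Best `m`-term trigonometric approximation in the uniform norm of the mixed smoothness classes:
the exact order for all `d ≥ 1` and all `1 < p < ∞`. -/

open MeasureTheory UnitAddTorus Filter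

open scoped ENNReal

namespace Pool.Agent.Results.MP_8c6e6e_an.ExactOrder

noncomputable section

/-- The circle `ℝ / ℤ` carries its normalised Haar measure. -/
local instance : MeasureSpace UnitAddCircle := ⟨AddCircle.haarAddCircle⟩

local instance : Measure.IsAddHaarMeasure (volume : Measure UnitAddCircle) :=
  inferInstanceAs (Measure.IsAddHaarMeasure AddCircle.haarAddCircle)

local instance : IsProbabilityMeasure (volume : Measure UnitAddCircle) :=
  inferInstanceAs (IsProbabilityMeasure AddCircle.haarAddCircle)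

/-- The `k`-th Fourier coefficient of the univariate kernel
`F_r(t) = 1 + 2 ∑ k ^ (-r) cos (k t - r π / 2)`. -/
def kernelCoeff (r : ℝ) (k : ℤ) : ℂ :=
  if k = 0 then 1 else ((|(k : ℝ)| ^ (-r) : ℝ) : ℂ) *
    Complex.exp ((-(Real.pi * r * (SignType.sign (k : ℝ) : ℝ) / 2) : ℝ) * Complex.I)

/-- The class of the real functions `f = F_r * φ` with real `φ`, `‖φ‖_p ≤ 1`, on the
`d`-dimensional torus (`F_r` is integrable for `r > 0`, and the convolution is given by its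
Fourier coefficients). -/
def SobolevClass (d : ℕ) (r : ℝ) (p : ℝ≥0∞) : Set (UnitAddTorus (Fin d) → ℝ) :=
  {f | Integrable f volume ∧ ∃ φ : UnitAddTorus (Fin d) → ℝ, MemLp φ p volume ∧
    eLpNorm φ p volume ≤ 1 ∧ ∀ k : Fin d → ℤ, mFourierCoeff (fun x => (f x : ℂ)) k
      = (∏ i, kernelCoeff r (k i)) * mFourierCoeff (fun x => (φ x : ℂ)) k}

/-- The same class for complex valued `φ`. -/
def SobolevClassC (d : ℕ) (r : ℝ) (p : ℝ≥0∞) : Set (UnitAddTorus (Fin d) → ℂ) :=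
  {f | Integrable f volume ∧ ∃ φ : UnitAddTorus (Fin d) → ℂ, MemLp φ p volume ∧
    eLpNorm φ p volume ≤ 1 ∧ ∀ k : Fin d → ℤ, mFourierCoeff f k
      = (∏ i, kernelCoeff r (k i)) * mFourierCoeff φ k}

/-- The best `m`-term trigonometric approximation of `f` in the uniform norm. -/
def sigma {d : ℕ} (m : ℕ) (f : UnitAddTorus (Fin d) → ℂ) : ℝ≥0∞ :=
  ⨅ (L : Finset (Fin d → ℤ)) (_ : L.card ≤ m) (c : (Fin d → ℤ) → ℂ),
    eLpNorm (fun x => f x - ∑ k ∈ L, c k * mFourier k x) ⊤ volume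

/-- The best `m`-term trigonometric approximation of the real class in the uniform norm. -/
def sigmaClass (d m : ℕ) (r : ℝ) (p : ℝ≥0∞) : ℝ≥0∞ :=
  ⨆ f ∈ SobolevClass d r p, sigma m (fun x => (f x : ℂ))

/-- The best `m`-term trigonometric approximation of the complex class in the uniform norm. -/
def sigmaClassC (d m : ℕ) (r : ℝ) (p : ℝ≥0∞) : ℝ≥0∞ :=
  ⨆ f ∈ SobolevClassC d r p, sigma m f

/-- The order: `m^(-r+η) (log m)^((d-1)(r-2η))` with `η = 1/p - 1/2` if `p < 2`; `m^(-r)` if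
`p ≥ 2` and `d = 1`; `m^(-r) (log m)^(r(d-1)+1/2)` if `p ≥ 2` and `d ≥ 2`. -/
def rate (d : ℕ) (p r : ℝ) (m : ℕ) : ℝ :=
  if p < 2 then (m : ℝ) ^ (-(r - (1 / p - 1 / 2)))
    * (Real.log m) ^ (((d : ℝ) - 1) * (r - 2 * (1 / p - 1 / 2)))
  else if d = 1 then (m : ℝ) ^ (-r)
  else (m : ℝ) ^ (-r) * (Real.log m) ^ (r * ((d : ℝ) - 1) + 1 / 2)

/-! ### wrappers -/

theorem class_le (d m : ℕ) (r : ℝ) (p : ℝ≥0∞) : sigmaClass d m r p ≤ sigmaClassC d m r p := by
  unfold sigmaClass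
  refine iSup₂_le (fun f hf => ?_)
  have hmem : (fun x => (f x : ℂ)) ∈ SobolevClassC d r p := by
    obtain ⟨hf1, φ, hφ, hφ1, hco⟩ := hf
    refine ⟨hf1.ofReal, fun x => (φ x : ℂ), hφ.ofReal, ?_, hco⟩
    refine le_trans (le_of_eq ?_) hφ1
    refine eLpNorm_congr_norm_ae (Eventually.of_forall fun x => ?_)
    simp
  exact le_iSup₂ (f := fun f (_ : f ∈ SobolevClassC d r p) => sigma m f) _ hmem

theorem class_anti (d m : ℕ) (r : ℝ) {p q : ℝ≥0∞} (hpq : p ≤ q) :
    sigmaClassC d m r q ≤ sigmaClassC d m r p := by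
  unfold sigmaClassC
  refine iSup₂_le (fun f hf => ?_)
  have hmem : f ∈ SobolevClassC d r p := by
    obtain ⟨hf1, φ, hφ, hφ1, hco⟩ := hf
    exact ⟨hf1, φ, hφ.mono_exponent hpq,
      (eLpNorm_le_eLpNorm_of_exponent_le hpq hφ.1).trans hφ1, hco⟩
  exact le_iSup₂ (f := fun f (_ : f ∈ SobolevClassC d r p) => sigma m f) _ hmem

/-- the upper bound from a bound for every function -/
theorem upper_of (d m : ℕ) (r : ℝ) (p : ℝ≥0∞) (E : ℝ≥0∞)
    (h : ∀ f φ : UnitAddTorus (Fin d) → ℂ, Integrable f volume → MemLp φ p volume →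
      eLpNorm φ p volume ≤ 1 →
      (∀ k : Fin d → ℤ, mFourierCoeff f k = (∏ i, H75.MT.cr r (k i)) * mFourierCoeff φ k) →
      ∃ (lam : Finset (Fin d → ℤ)) (c : (Fin d → ℤ) → ℂ), lam.card ≤ m ∧
        eLpNorm (fun x => f x - ∑ k ∈ lam, c k * mFourier k x) ⊤ volume ≤ E) :
    sigmaClassC d m r p ≤ E := by
  unfold sigmaClassC
  refine iSup₂_le (fun f hf => ?_)
  obtain ⟨hf1, φ, hφ, hφ1, hco⟩ := hf
  obtain ⟨L, c, hL, hc⟩ := h f φ hf1 hφ hφ1 hco
  unfold sigma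
  exact iInf_le_of_le L (iInf_le_of_le hL (iInf_le_of_le c hc))

/-- the lower bound from one real function -/
theorem lower_of (d m : ℕ) (r : ℝ) (p : ℝ≥0∞) (E : ℝ)
    (F P : C(UnitAddTorus (Fin d), ℂ)) (hF : ∀ x, (F x).im = 0) (hP : ∀ x, (P x).im = 0)
    (hco : ∀ k : Fin d → ℤ, mFourierCoeff F k = (∏ i, H75.MT.cr r (k i)) * mFourierCoeff P k)
    (hnorm : eLpNorm (fun x => (P x).re) p volume ≤ 1)
    (hlow : ∀ L : Finset (Fin d → ℤ), L.card ≤ m → ∀ (b : (Fin d → ℤ) → ℂ) (W : ℝ),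
      (∀ x, ‖F x - ∑ k ∈ L, b k * mFourier k x‖ ≤ W) → E ≤ W) :
    ENNReal.ofReal E ≤ sigmaClass d m r p := by
  have hFre : (fun x => (((F x).re : ℝ) : ℂ)) = fun x => F x := by
    funext x
    apply Complex.ext
    · simp
    · simpa using (hF x).symm
  have hPre : (fun x => (((P x).re : ℝ) : ℂ)) = fun x => P x := by
    funext x
    apply Complex.ext
    · simp
    · simpa using (hP x).symm
  have hmem : (fun x => (F x).re) ∈ SobolevClass d r p := by
    refine ⟨?_, fun x => (P x).re, ?_, ?_, ?_⟩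
    · exact H75.UB.rint _ (by fun_prop)
    · have hc : Continuous (fun x : UnitAddTorus (Fin d) => (P x).re) := by fun_prop
      exact hc.memLp_of_hasCompactSupport (HasCompactSupport.of_compactSpace _)
    · exact hnorm
    · intro k
      rw [hFre, hPre]
      exact hco k
  refine le_trans ?_ (le_iSup₂ (f := fun f (_ : f ∈ SobolevClass d r p) =>
    sigma m (fun x => (f x : ℂ))) (fun x => (F x).re) hmem)
  unfold sigma
  refine le_iInf fun L => le_iInf fun hL => le_iInf fun b => ?_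
  have h1 : (fun x : UnitAddTorus (Fin d) => (((F x).re : ℝ) : ℂ)
      - ∑ k ∈ L, b k * mFourier k x) = fun x => F x - ∑ k ∈ L, b k * mFourier k x := by
    funext x
    rw [show (((F x).re : ℝ) : ℂ) = F x from congrFun hFre x]
  show ENNReal.ofReal E ≤ eLpNorm (fun x : UnitAddTorus (Fin d) => (((F x).re : ℝ) : ℂ)
      - ∑ k ∈ L, b k * mFourier k x) ⊤ volume
  rw [h1]
  exact H73.KH.ess_lower F L b E (fun W hW => hlow L hL b W hW)

/-! ### the lower bounds -/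

theorem low_p (d : ℕ) (hd : 1 ≤ d) (p r : ℝ) (hp1 : 1 < p) (hp2 : p ≤ 2) (hr : 1 / p < r) :
    ∃ c : ℝ, 0 < c ∧ ∀ᶠ m : ℕ in atTop,
      ENNReal.ofReal (c * ((m : ℝ) ^ (-(r - (1 / p - 1 / 2)))
        * (Real.log m) ^ (((d : ℝ) - 1) * (r - 2 * (1 / p - 1 / 2)))))
        ≤ sigmaClass d m r (ENNReal.ofReal p) := by
  obtain ⟨c, hc, h⟩ := H73.KH.lowP d hd p r hp1.le hp2 hr
  refine ⟨c, hc, ?_⟩
  filter_upwards [h] with m hm
  obtain ⟨F, P, hF, hP, hco, hnorm, hlow⟩ := hm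
  refine lower_of d m r _ _ F P hF hP hco hnorm (fun L hL b W hW => ?_)
  refine le_trans (le_of_eq ?_) (hlow L hL b W hW)
  ring

theorem low_one (r : ℝ) (hr : 0 < r) (p : ℝ≥0∞) :
    ∃ c : ℝ, 0 < c ∧ ∀ᶠ m : ℕ in atTop,
      ENNReal.ofReal (c * (m : ℝ) ^ (-r)) ≤ sigmaClass 1 m r p := by
  obtain ⟨c, hc, h⟩ := H73.KH.low_one r hr
  refine ⟨c, hc, ?_⟩
  filter_upwards [h] with m hm
  obtain ⟨F, P, hF, hP, hco, hnorm, hlow⟩ := hm
  refine lower_of 1 m r _ _ F P hF hP hco ?_ hlow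
  have h2 := eLpNorm_le_of_ae_bound (μ := (volume : Measure (UnitAddTorus (Fin 1)))) (p := p)
    (f := fun x => (P x).re) (C := 1) (Eventually.of_forall fun x => by
      rw [Real.norm_eq_abs]
      exact (Complex.abs_re_le_norm _).trans (hnorm x))
  simpa using h2

theorem low_two (r : ℝ) (hr : 0 < r) (p : ℝ≥0∞)
    (hp : p ≠ ⊤) : ∃ c : ℝ, 0 < c ∧ ∀ᶠ m : ℕ in atTop,
      ENNReal.ofReal (c * ((m : ℝ) ^ (-r) * (Real.log m) ^ (r + 1 / 2))) ≤ sigmaClass 2 m r p := by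
  classical
  obtain ⟨mp, hmp⟩ := ENNReal.exists_nat_gt hp
  have hmp1 : 1 ≤ mp := by
    have h1 : (0 : ℝ≥0∞) < mp := lt_of_le_of_lt zero_le hmp
    have h2 : 0 < mp := by exact_mod_cast h1
    omega
  have hfac : (0 : ℝ) < mp.factorial := by exact_mod_cast Nat.factorial_pos mp
  obtain ⟨c₀, hc₀, K0, hK0⟩ := H67.CP.stCore
  obtain ⟨K1, hK1⟩ := exists_nat_ge c₀
  obtain ⟨m0, hm0⟩ := H96.CP.params' c₀ hc₀ (max K0 K1)
  refine ⟨(64 : ℝ) ^ (-r) * c₀ / (16 * mp.factorial * 4 ^ r) /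
    ((c₀ / 16) ^ (-r) * 5 ^ (r + 1 / 2)), by positivity, ?_⟩
  filter_upwards [eventually_ge_atTop m0] with m hm
  obtain ⟨K, hKK, hK2, h3, h4⟩ := hm0 m hm
  obtain ⟨F, P, hF, hP, hco, hnorm, hlow⟩ :=
    H96.CP.construct' c₀ K (fun B hB => by
      refine le_trans (Nat.mul_le_mul_left _ (Finset.card_le_card fun ε hε => ?_))
        (hK0 K ((le_max_left _ _).trans hKK))
      exact Finset.mem_filter.2 ⟨Finset.mem_univ _, hB ε hε⟩) r hr mp hmp1
  have hcomp := H96.CP.compare' c₀ hc₀ r hr mp m K hK2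
    (hK1.trans (by exact_mod_cast (le_max_right _ _).trans hKK)) h3 h4
  refine lower_of 2 m r p _ F P hF hP hco ?_ (fun L hL b W hW => ?_)
  · refine le_trans ?_ hnorm
    have hc : Continuous (fun x : UnitAddTorus (Fin 2) => (P x).re) := by fun_prop
    exact eLpNorm_le_eLpNorm_of_exponent_le hmp.le hc.aestronglyMeasurable
  · have hL' : (L.card : ℝ) ≤ c₀ * K * 8 ^ K := le_trans (by exact_mod_cast hL) h3
    rw [← mul_assoc]
    exact hcomp.trans (hlow L b W hL' hW)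

theorem low_three (d : ℕ) (hd : 3 ≤ d) (r : ℝ) (hr : 0 < r) (p : ℝ≥0∞) (hp : p ≠ ⊤) :
    ∃ c : ℝ, 0 < c ∧ ∀ᶠ m : ℕ in atTop,
      ENNReal.ofReal (c * ((m : ℝ) ^ (-r) * (Real.log m) ^ (r * ((d : ℝ) - 1) + 1 / 2)))
        ≤ sigmaClass d m r p := by
  obtain ⟨mp, hmp⟩ := ENNReal.exists_nat_gt hp
  have hmp1 : 1 ≤ mp := by
    have h1 : (0 : ℝ≥0∞) < mp := lt_of_le_of_lt zero_le hmp
    have h2 : 0 < mp := by exact_mod_cast h1
    omega
  obtain ⟨c, q0, hc, hq01, hcon⟩ := H75.MX.construct d hd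
  obtain ⟨c', hc', hcomp⟩ := H75.MX.compare d hd r hr mp hmp1 c hc
  refine ⟨c', hc', ?_⟩
  filter_upwards [eventually_gt_atTop (max 2 ((Finset.range (q0 + 1)).sup (H75.MX.fq d)))]
    with m hm
  have hm2 : 2 ≤ m := by
    have := (le_max_left 2 ((Finset.range (q0 + 1)).sup (H75.MX.fq d))).trans_lt hm
    omega
  obtain ⟨q, hq, h1, h2⟩ := H75.MX.params d (by omega) q0 m hq01
    ((le_max_right 2 ((Finset.range (q0 + 1)).sup (H75.MX.fq d))).trans_lt hm)
  obtain ⟨F, P, hF, hP, hco, hnorm, hlow⟩ := hcon r hr mp hmp1 q hq.le (4 * d * q) rfl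
  have hcmp := hcomp q m (4 * d * q) (by omega) hm2 rfl h1 h2
  refine lower_of d m r p _ F P hF hP hco ?_ (fun L hL b W hW => ?_)
  · refine le_trans ?_ hnorm
    have hc : Continuous (fun x : UnitAddTorus (Fin d) => (P x).re) := by fun_prop
    exact eLpNorm_le_eLpNorm_of_exponent_le hmp.le hc.aestronglyMeasurable
  · have hL' : L.card * (32768 * (d + 3)) ≤ H75.MX.LL d (4 * d * q) * (2 ^ d * 8 ^ (4 * d * q)) :=
      (Nat.mul_le_mul_right _ hL).trans h1
    rw [← mul_assoc]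
    exact hcmp.trans (hlow L hL' b W hW)

/-! ### the theorem -/

/-- For every `d ≥ 1`, `1 < p < ∞` and `r > 1/p` if `p ≤ 2`, `r > 1/2` if `p ≥ 2`, the order of
`σ_m(W^r_p)_∞` is `rate d p r m`, for the real class and for the complex class. -/
theorem result (d : ℕ) (hd : 1 ≤ d) (p r : ℝ) (hp : 1 < p) (hr1 : p ≤ 2 → 1 / p < r)
    (hr2 : 2 ≤ p → 1 / 2 < r) :
    ∃ c C : ℝ, 0 < c ∧ 0 < C ∧ ∀ᶠ m : ℕ in atTop,
      ENNReal.ofReal (c * rate d p r m) ≤ sigmaClass d m r (ENNReal.ofReal p) ∧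
      sigmaClass d m r (ENNReal.ofReal p) ≤ sigmaClassC d m r (ENNReal.ofReal p) ∧
      sigmaClassC d m r (ENNReal.ofReal p) ≤ ENNReal.ofReal (C * rate d p r m) := by
  have htop : ENNReal.ofReal p ≠ ⊤ := ENNReal.ofReal_ne_top
  rcases lt_or_ge p 2 with h2 | h2
  · -- `p < 2`
    have hr := hr1 h2.le
    have hU : H75.UX.UpperSt d p r := by
      rcases Nat.lt_or_ge d 2 with h | h
      · have : d = 1 := by omega
        subst this
        exact H73.KH.upper1 p r hp h2.le hr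
      · exact H75.UX.upperX d h p r hp h2 hr
    obtain ⟨c, hc, hlow⟩ := low_p d hd p r hp h2.le hr
    obtain ⟨C, hC, hup⟩ := hU
    refine ⟨c, C, hc, hC, ?_⟩
    filter_upwards [hlow, hup] with m hm1 hm2
    unfold rate
    rw [if_pos h2]
    refine ⟨hm1, class_le d m r _, ?_⟩
    refine upper_of d m r _ _ (fun f φ h3 h4 h5 h6 => ?_)
    obtain ⟨lam, b, h7, h8⟩ := hm2 f φ h3 h4 h5 h6
    refine ⟨lam, b, h7, h8.trans (le_of_eq ?_)⟩
    congr 1
    ring
  · -- `p ≥ 2`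
    have hr := hr2 h2
    have hr0 : 0 < r := by linarith
    have h2p : (2 : ℝ≥0∞) ≤ ENNReal.ofReal p := by
      have h3 := ENNReal.ofReal_le_ofReal h2
      simpa using h3
    rcases Nat.lt_or_ge d 2 with h | h
    · have hd1 : d = 1 := by omega
      subst hd1
      obtain ⟨c, hc, hlow⟩ := low_one r hr0 (ENNReal.ofReal p)
      obtain ⟨C, hC, hup⟩ := H73.KH.upper1 2 r (by norm_num) le_rfl hr
      refine ⟨c, C, hc, hC, ?_⟩
      filter_upwards [hlow, hup] with m hm1 hm2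
      unfold rate
      rw [if_neg (not_lt.2 h2), if_pos rfl]
      refine ⟨hm1, class_le 1 m r _, (class_anti 1 m r h2p).trans ?_⟩
      refine upper_of 1 m r _ _ (fun f φ h3 h4 h5 h6 => ?_)
      have e2 : ENNReal.ofReal 2 = 2 := by simp
      rw [← e2] at h4 h5
      obtain ⟨lam, b, h7, h8⟩ := hm2 f φ h3 h4 h5 h6
      refine ⟨lam, b, h7, h8.trans (le_of_eq ?_)⟩
      congr 1
      norm_num
    · have hlow : ∃ c : ℝ, 0 < c ∧ ∀ᶠ m : ℕ in atTop,
          ENNReal.ofReal (c * ((m : ℝ) ^ (-r) * (Real.log m) ^ (r * ((d : ℝ) - 1) + 1 / 2)))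
            ≤ sigmaClass d m r (ENNReal.ofReal p) := by
        rcases Nat.lt_or_ge d 3 with h3 | h3
        · have hd2 : d = 2 := by omega
          subst hd2
          obtain ⟨c, hc, hlow⟩ := low_two r hr0 (ENNReal.ofReal p) htop
          refine ⟨c, hc, ?_⟩
          filter_upwards [hlow] with m hm
          refine le_trans (le_of_eq ?_) hm
          norm_num
        · exact low_three d h3 r hr0 _ htop
      obtain ⟨c, hc, hlow⟩ := hlow
      obtain ⟨C, hC, hup⟩ := H73.KH.upper2 d (by omega) r hr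
      refine ⟨c, C, hc, hC, ?_⟩
      filter_upwards [hlow, hup] with m hm1 hm2
      unfold rate
      rw [if_neg (not_lt.2 h2), if_neg (by omega)]
      refine ⟨hm1, class_le d m r _, (class_anti d m r h2p).trans ?_⟩
      refine upper_of d m r _ _ (fun f φ h3 h4 h5 h6 => ?_)
      obtain ⟨lam, b, h7, h8⟩ := hm2 f φ h3 h4 h5 h6
      refine ⟨lam, b, h7, h8.trans (le_of_eq ?_)⟩
      congr 1
      rw [mul_comm ((d : ℝ) - 1) r]
      ring

end

end Pool.Agent.Results.MP_8c6e6e_an.ExactOrder
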